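import Pool.Agent.Lib.MP_2add11_gt.FG.SK

/-!
Vanishing of Mennicke symbols: reduction to size two, and symbols coming from the integers.
-/

noncomputable section

namespace Pool.Agent.Lib.MP_2add11_gt.FG

open Matrix

theorem dir (m b : ℤ) (hb : b ≠ 0) (h : IsCoprime m b) (l : ℕ) (hl : l.Prime) :
    ∃ (t : ℤ) (k : ℕ), 0 < k ∧ ¬ l ∣ k ∧ (m + t * b ∣ b ^ k - 1 ∨ m + t * b ∣ b ^ k + 1) := by
  have c1 : ((b.natAbs : ℕ) : ℤ) ∣ b := Int.natAbs_dvd.2 dvd_rfl
  have c2 : b ∣ ((b.natAbs : ℕ) : ℤ) := Int.dvd_natAbs.2 dvd_rfl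
  have c0 : b.natAbs ≠ 0 := Int.natAbs_ne_zero.2 hb
  generalize b.natAbs = c at c0 c1 c2
  obtain ⟨p0, h0, hp0, e0⟩ := Nat.forall_exists_prime_gt_and_zmodEq (2 * l) c0
    (h.of_isCoprime_of_dvd_right c1)
  have l2 := hl.two_le
  obtain ⟨e, he, hne⟩ : ∃ e : ℤ, e * e = 1 ∧ ¬ (2 * l : ℤ) ∣ e * p0 - 1 := by
    by_cases h1 : (2 * l : ℤ) ∣ 1 * p0 - 1
    · refine ⟨-1, by norm_num, fun h2 => ?_⟩
      have h3 : (2 * l : ℤ) ∣ 2 := by
        have := (h1.add h2).neg_right
        rwa [show -(1 * (p0 : ℤ) - 1 + (-1 * p0 - 1)) = 2 by ring] at this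
      have := Int.le_of_dvd (by norm_num) h3
      omega
    · exact ⟨1, by norm_num, h1⟩
  obtain ⟨t0, ht0⟩ := c2.trans e0.symm.dvd
  have k1 : IsCoprime (p0 : ℤ) b := by
    rw [show (p0 : ℤ) = m + b * t0 by linear_combination ht0]
    exact h.add_mul_left_left t0
  have k2 : IsCoprime (p0 : ℤ) ((2 * l : ℕ) : ℤ) :=
    Nat.isCoprime_iff_coprime.2 (hp0.coprime_iff_not_dvd.2
      (Nat.not_dvd_of_pos_of_lt (by omega) h0))
  have ue : IsUnit e := IsUnit.of_mul_eq_one e he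
  have k3 : IsCoprime (e * p0) ((c * (2 * l) : ℕ) : ℤ) := by
    rw [Nat.cast_mul, isCoprime_mul_unit_left_left ue]
    exact (k1.of_isCoprime_of_dvd_right c1).mul_right k2
  obtain ⟨p, h2, hp, e1⟩ := Nat.forall_exists_prime_gt_and_zmodEq 2
    (Nat.mul_ne_zero c0 (by omega)) k3
  obtain ⟨k, hk⟩ := hp.odd_of_ne_two (by omega)
  obtain ⟨r, hr⟩ := e1.symm.dvd
  obtain ⟨v, hv⟩ := c2
  push_cast at hr
  have e2 : m + (t0 + e * v * (2 * l) * r) * b = e * p := by
    linear_combination -ht0 - e * hr - e * (2 * l) * r * hv - (p0 : ℤ) * he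
  have hk' : (p : ℤ) = 2 * k + 1 := by exact_mod_cast hk
  refine ⟨t0 + e * v * (2 * l) * r, k, by omega, ?_, ?_⟩
  · rintro ⟨j, hj⟩
    have hj' : (k : ℤ) = l * j := by exact_mod_cast hj
    exact hne ⟨j - c * r, by linear_combination -hr + hk' + 2 * hj'⟩
  · have k4 : IsCoprime b (p : ℤ) := by
      rw [← isCoprime_mul_unit_left_right ue, ← e2]
      exact (h.add_mul_right_left _).symm
    have f := (Int.ModEq.pow_card_sub_one_eq_one hp k4).symm.dvd
    rw [show b ^ (p - 1) - 1 = (b ^ k - 1) * (b ^ k + 1) by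
      rw [show p - 1 = k * 2 by omega, pow_mul]; ring] at f
    rw [e2, ue.mul_left_dvd, ue.mul_left_dvd]
    exact (Nat.prime_iff_prime_int.1 hp).dvd_or_dvd f

variable {R W : Type} [CommRing R] [AddCommGroup W]
variable {n : Type} [Fintype n] [DecidableEq n]

namespace Inv

variable (s : Inv R W)

theorem Sym.cg {a b a' b' : R} {w : W} (h : s.Sym a b w) (ha : a = a') (hb : b = b') :
    s.Sym a' b' w := ha ▸ hb ▸ h

theorem Sym.addR {a b : R} {w : W} (h : s.Sym a b w) (t : R) : s.Sym a (b + t * a) w := by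
  obtain ⟨c, d, h, rfl⟩ := h
  refine ⟨c, d + t * c, by linear_combination h, ?_⟩
  have : !![a, b + t * a; c, d + t * c] = !![a, b; c, d] * !![1, t; 0, 1] := by
    ext i j
    fin_cases i <;> fin_cases j <;> simp [mul_apply] <;> ring
  rw [this, s.mul (unit2 h) (unit2 (by simp)), s.up2, add_zero]

theorem Sym.addL {a b : R} {w : W} (h : s.Sym a b w) (t : R) : s.Sym (a + t * b) b w := by
  obtain ⟨c, d, h, rfl⟩ := h
  refine ⟨c + t * d, d, by linear_combination h, ?_⟩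
  have : !![a + t * b, b; c + t * d, d] = !![a, b; c, d] * !![1, 0; t, 1] := by
    ext i j
    fin_cases i <;> fin_cases j <;> simp [mul_apply] <;> ring
  rw [this, s.mul (unit2 h) (unit2 (by simp)), s.low2, add_zero]

theorem sym_neg_one (a x : R) : s.Sym a (-1 + a * x) 0 :=
  ((((s.sym_one 1 0).addR s (-2)).addL s (1 - a)).addR s x).cg s (by ring) (by ring)

theorem Sym.kill {a b : R} {w : W} (h : s.Sym a b w) {k : ℕ}
    (hk : a ∣ b ^ k - 1 ∨ a ∣ b ^ k + 1) : k • w = 0 := by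
  have hp : ∀ j : ℕ, s.Sym a (b ^ j) (j • w) := fun j => by
    induction j with
    | zero => simpa using s.sym_one a 0
    | succ j ih =>
      rw [pow_succ, succ_nsmul]
      exact ih.mul s h
  rcases hk with ⟨x, hx⟩ | ⟨x, hx⟩
  · exact (hp k).uniq s ((s.sym_one a x).cg s rfl (by linear_combination -hx))
  · exact (hp k).uniq s ((s.sym_neg_one a x).cg s rfl (by linear_combination -hx))

theorem Sym.int {N : R} (hN : N * N = 5 * N) {x y : ℤ} (hy : y ≠ 0)
    (hc : IsCoprime (1 + 5 * x) (5 * y)) {w : W} (h : s.Sym (1 + N * x) (N * y) w) : w = 0 := by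
  have key : ∀ l : ℕ, l.Prime → ∃ k : ℕ, 0 < k ∧ ¬ l ∣ k ∧ k • w = 0 := fun l hl => by
    obtain ⟨t, k, hk, hl, hd⟩ := dir _ _ (mul_ne_zero (by norm_num) hy) hc l hl
    refine ⟨k, hk, hl, ?_⟩
    have h1 : s.Sym (1 + N * (x + t * y)) (5 * y) w :=
      ((h.addL s t).addR s ((5 - N) * y)).cg s (by ring)
        (by linear_combination -(y : R) * (x + t * y) * hN)
    have h2 : (1 + N * (x + t * y) : R) ∣ ((1 + 5 * x + t * (5 * y) : ℤ) : R) :=
      ⟨1 + (5 - N) * (x + t * y), by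
        push_cast
        linear_combination ((x : R) + t * y) ^ 2 * hN⟩
    refine h1.kill s (hd.imp (fun h3 => ?_) fun h3 => ?_)
    · have := h2.trans (map_dvd (Int.castRingHom R) h3)
      simpa using this
    · have := h2.trans (map_dvd (Int.castRingHom R) h3)
      simpa using this
  rw [← AddMonoid.addOrderOf_eq_one_iff]
  by_contra hne
  obtain ⟨l, hl, hd⟩ := Nat.exists_prime_and_dvd hne
  obtain ⟨k, -, h1, h2⟩ := key l hl
  exact h1 (hd.trans (addOrderOf_dvd_of_nsmul_eq_zero h2))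

theorem sk0 (hN : ∀ a y : R, ∃ t, Good (a + t * (1 - a * y)))
    (h1 : ∀ x : R, IsUnit x → s.c (u1 x) = 0) (h0 : ∀ a b w, s.Sym a b w → w = 0)
    {A : Matrix n n R} (hA : IsUnit A) : s.c A = 0 := by
  induction hn : Fintype.card n using Nat.strong_induction_on generalizing n with
  | _ k ih =>
  subst hn
  rcases lt_trichotomy (Fintype.card n) 2 with h | h | h
  · have : Subsingleton n := Fintype.card_le_one_iff_subsingleton.1 (by omega)
    have : A = diagonal fun i => A i i := by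
      ext i j
      rw [Subsingleton.elim j i, diagonal_apply_eq]
    have hu : ∀ i, IsUnit (A i i) := fun i => by
      have := (isUnit_iff_isUnit_det _).1 hA
      rwa [det_eq_elem_of_subsingleton _ i] at this
    rw [this, (s.diag hu fun i => h1 _ (hu i)).2]
  · have e := (Fintype.equivFinOfCardEq h).symm
    rw [← s.sub e hA]
    have hB := isUnit_sub e hA
    generalize A.submatrix e e = B at hB
    obtain ⟨u, hu⟩ := (isUnit_iff_isUnit_det _).1 hB
    have hd : ∀ i, IsUnit (![1, (↑u⁻¹ : R)] i) := fun i => by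
      fin_cases i <;> simp
    obtain ⟨h4, h5⟩ := s.diag hd fun i => h1 _ (hd i)
    refine h0 (B 0 0) (B 0 1) _ ⟨↑u⁻¹ * B 1 0, ↑u⁻¹ * B 1 1, ?_, ?_⟩
    · rw [det_fin_two] at hu
      linear_combination u.mul_inv - (↑u⁻¹ : R) * hu
    · rw [← zero_add (s.c B), ← h5, ← s.mul h4 hB]
      congr 1
      ext i j
      fin_cases i <;> fin_cases j <;> simp [diagonal_mul]
  · obtain ⟨i0, i1, i2, h01, h02, h12⟩ := Fintype.two_lt_card_iff.1 h
    obtain ⟨y, hy⟩ := s.colop1 hA i0 i1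
    obtain ⟨t, ht⟩ := hN (A i0 i1) y
    obtain ⟨B, hB, e1, h3, -⟩ := hy t
    rw [← h3] at ht
    obtain ⟨y, hy⟩ := s.colop1 hB i0 i2
    obtain ⟨t, ht⟩ := ht.coprime (B i0 i2) y
    obtain ⟨C, hC, e2, h3, h4⟩ := hy t
    rw [← h3, ← h4 i1 h12] at ht
    obtain ⟨p, q, hpq⟩ := ht
    obtain ⟨D, hD, e3, h5⟩ := s.colop hC i0
      (fun l => (1 - C i0 i0) * ((if l = i1 then p else 0) + if l = i2 then q else 0))
      (by simp [h01, h02])
    obtain ⟨F, hF, e4⟩ := s.clear hD i0 (by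
      simp only [h5, if_true, mul_add, Finset.sum_add_distrib, mul_ite, mul_zero,
        Finset.sum_ite_eq', Finset.mem_univ]
      linear_combination (1 - C i0 i0) * hpq)
    rw [← e1, ← e2, ← e3, ← e4]
    refine ih _ ?_ hF rfl
    exact Fintype.card_subtype_lt (x := i0) (by simp)

theorem sk0' (hN : ∀ a y : R, ∃ t, Good (a + t * (1 - a * y)))
    (h0 : ∀ a b w, s.red.Sym a b w → w = 0) {A : Matrix n n R}
    (hA : IsUnit A) : s.c A = s.c (u1 A.det) := by
  rw [← sub_eq_zero, ← det'_eq]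
  refine s.red.sk0 hN (fun x _ => ?_) h0 hA
  change s.c (u1 x) - s.c (u1 (det' (u1 x))) = 0
  rw [det'_eq, det_unique]
  exact sub_self _

end Inv

end Pool.Agent.Lib.MP_2add11_gt.FG
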