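import Pool.Agent.Lib.MP_2add11_gt.C5.A

/-!
Arithmetic of `ℤ[ℤ/5]`: the two complex places, a Euclidean step modulo the norm element.
-/

noncomputable section

namespace Pool.Agent.Lib.MP_2add11_gt.C5

open Complex ComplexConjugate

def el (a b c d e : ℤ) : ZG := a + b * T + c * T ^ 2 + d * T ^ 3 + e * T ^ 4

theorem exists_el (r : ZG) : ∃ a b c d e : ℤ, r = el a b c d e := by
  induction r using MonoidAlgebra.induction_on with
  | of m =>
    have : m = gen ^ 0 ∨ m = gen ^ 1 ∨ m = gen ^ 2 ∨ m = gen ^ 3 ∨ m = gen ^ 4 := by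
      revert m; decide
    rw [MonoidAlgebra.of_apply]
    rcases this with h | h | h | h | h <;> rw [h, ← T_pow]
    exacts [⟨1, 0, 0, 0, 0, by simp [el]⟩, ⟨0, 1, 0, 0, 0, by simp [el]⟩,
      ⟨0, 0, 1, 0, 0, by simp [el]⟩, ⟨0, 0, 0, 1, 0, by simp [el]⟩, ⟨0, 0, 0, 0, 1, by simp [el]⟩]
  | add x y hx hy =>
    obtain ⟨a, b, c, d, e, rfl⟩ := hx
    obtain ⟨a', b', c', d', e', rfl⟩ := hy
    exact ⟨a + a', b + b', c + c', d + d', e + e', by simp only [el]; push_cast; ring⟩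
  | smul r x hx =>
    obtain ⟨a, b, c, d, e, rfl⟩ := hx
    exact ⟨r * a, r * b, r * c, r * d, r * e, by
      simp only [el, zsmul_eq_mul]; push_cast; ring⟩

def z : ℂ := chr gen

theorem phi_T : phi T = z := phi_single gen

theorem z5 : z ^ 5 = 1 := by rw [← phi_T, ← map_pow, T_five, map_one]

theorem z4 : z ^ 4 + z ^ 3 + z ^ 2 + z + 1 = 0 := by
  have h1 : z ≠ 1 := fun h => by
    have : ZMod.stdAddChar (N := 5) 1 = ZMod.stdAddChar (N := 5) 0 :=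
      h.trans (AddChar.map_zero_eq_one _).symm
    exact absurd (ZMod.injective_stdAddChar this) (by decide)
  exact mul_left_cancel₀ (sub_ne_zero.2 h1) (by linear_combination z5)

theorem zc : conj z = z ^ 4 := by
  have h : z * conj z = 1 := by
    rw [mul_conj, normSq_eq_norm_sq, z, norm_chr]; simp
  linear_combination z ^ 4 * h - conj z * z5

def psi : ZG →+* ℂ := (MonoidAlgebra.lift ℤ ℂ G5 (chr.comp (powMonoidHom 2))).toRingHom

theorem psi_T : psi T = z ^ 2 := by simp [psi, T, z]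

def eps : ZG →+* ℤ := (MonoidAlgebra.lift ℤ ℤ G5 1).toRingHom

theorem eps_T : eps T = 1 := by simp [eps, T]

def sg : ℝ := 2 * z.re

theorem sg_eq : (sg : ℂ) = z + z ^ 4 := by rw [← zc, add_conj, sg]

theorem sg_sq : sg ^ 2 + sg - 1 = 0 := by
  apply ofReal_injective
  push_cast
  rw [sg_eq]
  linear_combination z4 + (z ^ 3 + 2) * z5

theorem nsq {w : ℂ} {s : ℝ} (h4 : w ^ 4 + w ^ 3 + w ^ 2 + w + 1 = 0) (hc : conj w = w ^ 4)
    (hs : (s : ℂ) = w + w ^ 4) (a b c d e : ℝ) :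
    normSq (a + b * w + c * w ^ 2 + d * w ^ 3 + e * w ^ 4) =
      (a ^ 2 + b ^ 2 + c ^ 2 + d ^ 2 + e ^ 2) + (a * b + b * c + c * d + d * e + e * a) * s +
        (a * c + b * d + c * e + d * a + e * b) * (-1 - s) := by
  have h5 : w ^ 5 = 1 := by linear_combination (w - 1) * h4
  have p2 : (w ^ 4) ^ 2 = w ^ 3 := by linear_combination w ^ 3 * h5
  have p3 : (w ^ 4) ^ 3 = w ^ 2 := by linear_combination (w ^ 7 + w ^ 2) * h5
  have p4 : (w ^ 4) ^ 4 = w := by linear_combination (w ^ 11 + w ^ 6 + w) * h5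
  apply ofReal_injective
  rw [← mul_conj]
  simp only [map_add, map_mul, map_pow, conj_ofReal, hc, p2, p3, p4]
  push_cast
  rw [hs]
  linear_combination ((b ^ 2 + c ^ 2 + d ^ 2 + e ^ 2 : ℂ) + (c * b + d * c + e * d) * w +
    (d * b + e * c) * w ^ 2 + e * b * w ^ 3) * h5 + (a * c + b * d + c * e + d * a + e * b : ℂ) * h4

theorem nsq1 (a b c d e : ℝ) :
    normSq (a + b * z + c * z ^ 2 + d * z ^ 3 + e * z ^ 4) =
      (a ^ 2 + b ^ 2 + c ^ 2 + d ^ 2 + e ^ 2) + (a * b + b * c + c * d + d * e + e * a) * sg +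
        (a * c + b * d + c * e + d * a + e * b) * (-1 - sg) := nsq z4 zc sg_eq a b c d e

theorem nsq2 (a b c d e : ℝ) :
    normSq (a + b * z ^ 2 + c * (z ^ 2) ^ 2 + d * (z ^ 2) ^ 3 + e * (z ^ 2) ^ 4) =
      (a ^ 2 + b ^ 2 + c ^ 2 + d ^ 2 + e ^ 2) +
        (a * b + b * c + c * d + d * e + e * a) * (-1 - sg) +
        (a * c + b * d + c * e + d * a + e * b) * sg := by
  rw [nsq (w := z ^ 2) (s := -1 - sg) (by linear_combination z4 + (z ^ 3 + z) * z5)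
    (by rw [map_pow, zc]; ring)
    (by push_cast; rw [sg_eq]; linear_combination -z4 - z ^ 3 * z5)]
  ring

def X (r : ZG) : ℝ := normSq (phi r)

def Y (r : ZG) : ℝ := normSq (psi r)

theorem phi_el (a b c d e : ℤ) : phi (el a b c d e) =
    (a : ℝ) + (b : ℝ) * z + (c : ℝ) * z ^ 2 + (d : ℝ) * z ^ 3 + (e : ℝ) * z ^ 4 := by
  simp [el, phi_T]

theorem psi_el (a b c d e : ℤ) : psi (el a b c d e) =
    (a : ℝ) + (b : ℝ) * z ^ 2 + (c : ℝ) * (z ^ 2) ^ 2 + (d : ℝ) * (z ^ 2) ^ 3 +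
      (e : ℝ) * (z ^ 2) ^ 4 := by
  simp [el, psi_T]

theorem eps_el (a b c d e : ℤ) : eps (el a b c d e) = a + b + c + d + e := by
  simp [el, eps_T]

theorem X_mul (a b : ZG) : X (a * b) = X a * X b := by simp [X]

theorem Y_mul (a b : ZG) : Y (a * b) = Y a * Y b := by simp [Y]

theorem nm_nat (r : ZG) : ∃ k : ℕ, X r * Y r = k := by
  have h0 : 0 ≤ X r * Y r := mul_nonneg (normSq_nonneg _) (normSq_nonneg _)
  obtain ⟨a, b, c, d, e, rfl⟩ := exists_el r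
  obtain ⟨A, hA⟩ : ∃ A : ℤ, A = a ^ 2 + b ^ 2 + c ^ 2 + d ^ 2 + e ^ 2 := ⟨_, rfl⟩
  obtain ⟨B, hB⟩ : ∃ B : ℤ, B = a * b + b * c + c * d + d * e + e * a := ⟨_, rfl⟩
  obtain ⟨C, hC⟩ : ∃ C : ℤ, C = a * c + b * d + c * e + d * a + e * b := ⟨_, rfl⟩
  have h1 : X (el a b c d e) * Y (el a b c d e) =
      ((A ^ 2 - A * B - A * C - B ^ 2 - C ^ 2 + 3 * B * C : ℤ) : ℝ) := by
    rw [X, Y, phi_el, psi_el, nsq1, nsq2]
    have a1 : (a : ℝ) ^ 2 + b ^ 2 + c ^ 2 + d ^ 2 + e ^ 2 = A := by rw [hA]; push_cast; ring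
    have a2 : (a : ℝ) * b + b * c + c * d + d * e + e * a = B := by rw [hB]; push_cast; ring
    have a3 : (a : ℝ) * c + b * d + c * e + d * a + e * b = C := by rw [hC]; push_cast; ring
    rw [a1, a2, a3]
    push_cast
    linear_combination (-((B : ℝ) - C) ^ 2) * sg_sq
  rw [h1] at h0 ⊢
  obtain ⟨k, hk⟩ := Int.eq_ofNat_of_zero_le (Int.cast_nonneg_iff.1 h0)
  exact ⟨k, by rw [hk, Int.cast_natCast]⟩

def N : ZG := 1 + T + T ^ 2 + T ^ 3 + T ^ 4

theorem N_mul (r : ZG) : N * r = N * (eps r : ℤ) := by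
  obtain ⟨a, b, c, d, e, rfl⟩ := exists_el r
  rw [eps_el, el, N]
  push_cast
  linear_combination ((b : ZG) + c * (T + 1) + d * (T ^ 2 + T + 1) +
    e * (T ^ 3 + T ^ 2 + T + 1)) * T_five

theorem eps_N : eps N = 5 := by simp [N, eps_T]

theorem irr {u v : ℤ} (h : (u : ℝ) + v * sg = 0) : v = 0 := by
  by_contra hv
  have hv' : (v : ℝ) ≠ 0 := by exact_mod_cast hv
  refine Nat.prime_five.irrational_sqrt ⟨|(v - 2 * u : ℚ) / v|, ?_⟩
  have : (((5 : ℕ) : ℝ)) = ((v - 2 * u : ℝ) / v) ^ 2 := by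
    rw [show (u : ℝ) = -v * sg by linear_combination h]
    field_simp
    push_cast
    linear_combination -4 * sg_sq
  rw [this, Real.sqrt_sq_eq_abs]
  push_cast
  rfl

theorem nm_zero {r : ZG} (h : X r * Y r = 0) : ∃ y : ℤ, r = N * y := by
  obtain ⟨a, b, c, d, e, rfl⟩ := exists_el r
  rw [X, Y, phi_el, psi_el, nsq1, nsq2] at h
  have h1 : a * b + b * c + c * d + d * e + e * a - (a * c + b * d + c * e + d * a + e * b) = 0 := by
    rcases mul_eq_zero.1 h with h | h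
    · exact irr (u := a ^ 2 + b ^ 2 + c ^ 2 + d ^ 2 + e ^ 2 -
        (a * c + b * d + c * e + d * a + e * b)) (by push_cast; linear_combination h)
    · rw [← neg_eq_zero]
      exact irr (u := a ^ 2 + b ^ 2 + c ^ 2 + d ^ 2 + e ^ 2 -
        (a * b + b * c + c * d + d * e + e * a)) (by push_cast; linear_combination h)
  have h2 : (a : ℝ) * c + b * d + c * e + d * a + e * b = a * b + b * c + c * d + d * e + e * a := by
    exact_mod_cast (sub_eq_zero.1 h1).symm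
  rw [h2] at h
  have h3 : (a : ℝ) ^ 2 + b ^ 2 + c ^ 2 + d ^ 2 + e ^ 2 - (a * b + b * c + c * d + d * e + e * a) = 0 :=
    (pow_eq_zero_iff two_ne_zero).1 (by linear_combination h)
  have h4 : (a - b) ^ 2 + (b - c) ^ 2 + (c - d) ^ 2 + (d - e) ^ 2 + (e - a) ^ 2 = 0 := by
    have : a ^ 2 + b ^ 2 + c ^ 2 + d ^ 2 + e ^ 2 - (a * b + b * c + c * d + d * e + e * a) = 0 := by
      exact_mod_cast h3
    linear_combination 2 * this
  have q1 := sq_nonneg (a - b)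
  have q2 := sq_nonneg (b - c)
  have q3 := sq_nonneg (c - d)
  have q4 := sq_nonneg (d - e)
  have q5 := sq_nonneg (e - a)
  obtain rfl : a = b := sub_eq_zero.1 (pow_eq_zero_iff two_ne_zero |>.1 (by omega))
  obtain rfl : a = c := sub_eq_zero.1 (pow_eq_zero_iff two_ne_zero |>.1 (by omega))
  obtain rfl : a = d := sub_eq_zero.1 (pow_eq_zero_iff two_ne_zero |>.1 (by omega))
  obtain rfl : a = e := sub_eq_zero.1 (pow_eq_zero_iff two_ne_zero |>.1 (by omega))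
  exact ⟨a, by rw [el, N]; ring⟩

theorem rnd (v : ℝ) : ∃ q q' : ℤ, (v - 0 - q) ^ 2 + (v - 1 / 2 - q') ^ 2 ≤ 1 / 4 := by
  have h1 := Int.floor_le v
  have h2 := Int.lt_floor_add_one v
  rcases le_total (v - ⌊v⌋) (1 / 2) with h | h
  · exact ⟨⌊v⌋, ⌊v⌋, by nlinarith⟩
  · exact ⟨⌊v⌋ + 1, ⌊v⌋, by push_cast; nlinarith⟩

theorem four (α β : ℂ) : ∃ a b c d e : ℝ, α = a + b * z + c * z ^ 2 + d * z ^ 3 + e * z ^ 4 ∧
    β = a + b * z ^ 2 + c * (z ^ 2) ^ 2 + d * (z ^ 2) ^ 3 + e * (z ^ 2) ^ 4 := by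
  have key : ∀ u : ℂ, ∃ v : ℝ, (v : ℂ) = (u + conj u) / 5 := fun u =>
    ⟨2 * u.re / 5, by rw [add_conj]; push_cast; ring⟩
  have p2 : (z ^ 4) ^ 2 = z ^ 3 := by linear_combination z ^ 3 * z5
  have p3 : (z ^ 4) ^ 3 = z ^ 2 := by linear_combination (z ^ 7 + z ^ 2) * z5
  have p4 : (z ^ 4) ^ 4 = z := by linear_combination (z ^ 11 + z ^ 6 + z) * z5
  have r2 : (z ^ 2) ^ 2 = z ^ 4 := by ring
  have r3 : (z ^ 2) ^ 3 = z := by linear_combination z * z5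
  have r4 : (z ^ 2) ^ 4 = z ^ 3 := by linear_combination z ^ 3 * z5
  obtain ⟨a, ha⟩ := key (α + β)
  obtain ⟨b, hb⟩ := key (α * z ^ 4 + β * z ^ 3)
  obtain ⟨c, hc⟩ := key (α * z ^ 3 + β * z)
  obtain ⟨d, hd⟩ := key (α * z ^ 2 + β * z ^ 4)
  obtain ⟨e, he⟩ := key (α * z + β * z ^ 2)
  simp only [map_add, map_mul, map_pow, zc, p2, p3, p4] at ha hb hc hd he
  refine ⟨a, b, c, d, e, ?_, ?_⟩
  · rw [ha, hb, hc, hd, he]
    linear_combination -(4 * α + conj α * (z + z ^ 3) + β * (z + z ^ 2) +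
      conj β * (z + z ^ 2)) / 5 * z5 - (conj α + β + conj β) / 5 * z4
  · rw [r2, r3, r4, ha, hb, hc, hd, he]
    linear_combination -(4 * β + conj β * (z + z ^ 3) + α * (z + z ^ 2) +
      conj α * (z + z ^ 2)) / 5 * z5 - (conj α + α + conj β) / 5 * z4

theorem approx (α β : ℂ) : ∃ q : ZG, normSq (α - phi q) * normSq (β - psi q) < 1 := by
  obtain ⟨a, b, c, d, e, rfl, rfl⟩ := four α β
  have key : ∀ (t : ℝ) (a' b' c' d' e' : ℤ), (a - t - a') ^ 2 + (b - t - b') ^ 2 + (c - t - c') ^ 2 +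
      (d - t - d') ^ 2 + (e - t - e') ^ 2 ≤ 5 / 8 → ∃ q : ZG,
      normSq (a + b * z + c * z ^ 2 + d * z ^ 3 + e * z ^ 4 - phi q) *
        normSq (a + b * z ^ 2 + c * (z ^ 2) ^ 2 + d * (z ^ 2) ^ 3 + e * (z ^ 2) ^ 4 - psi q) < 1 := by
    intro t a' b' c' d' e' h
    refine ⟨el a' b' c' d' e', ?_⟩
    have e1 : a + b * z + c * z ^ 2 + d * z ^ 3 + e * z ^ 4 - phi (el a' b' c' d' e') =
        (a - t - a' : ℝ) + (b - t - b' : ℝ) * z + (c - t - c' : ℝ) * z ^ 2 +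
          (d - t - d' : ℝ) * z ^ 3 + (e - t - e' : ℝ) * z ^ 4 := by
      rw [phi_el]; push_cast; linear_combination (t : ℂ) * z4
    have e2 : a + b * z ^ 2 + c * (z ^ 2) ^ 2 + d * (z ^ 2) ^ 3 + e * (z ^ 2) ^ 4 -
        psi (el a' b' c' d' e') =
        (a - t - a' : ℝ) + (b - t - b' : ℝ) * z ^ 2 + (c - t - c' : ℝ) * (z ^ 2) ^ 2 +
          (d - t - d' : ℝ) * (z ^ 2) ^ 3 + (e - t - e' : ℝ) * (z ^ 2) ^ 4 := by
      rw [psi_el]; push_cast; linear_combination (t : ℂ) * z4 + (t : ℂ) * (z ^ 3 + z) * z5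
    rw [e1, e2]
    generalize a - t - a' = a, b - t - b' = b, c - t - c' = c, d - t - d' = d, e - t - e' = e at h ⊢
    have x0 := normSq_nonneg (a + b * z + c * z ^ 2 + d * z ^ 3 + e * z ^ 4)
    have y0 := normSq_nonneg (a + b * z ^ 2 + c * (z ^ 2) ^ 2 + d * (z ^ 2) ^ 3 + e * (z ^ 2) ^ 4)
    have s : normSq (a + b * z + c * z ^ 2 + d * z ^ 3 + e * z ^ 4) +
        normSq (a + b * z ^ 2 + c * (z ^ 2) ^ 2 + d * (z ^ 2) ^ 3 + e * (z ^ 2) ^ 4) ≤ 25 / 16 := by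
      rw [nsq1, nsq2]
      nlinarith [sq_nonneg (a + b + c + d + e)]
    generalize normSq (a + b * z + c * z ^ 2 + d * z ^ 3 + e * z ^ 4) = x,
      normSq (a + b * z ^ 2 + c * (z ^ 2) ^ 2 + d * (z ^ 2) ^ 3 + e * (z ^ 2) ^ 4) = y at x0 y0 s ⊢
    nlinarith [sq_nonneg (x - y)]
  obtain ⟨a1, a2, ha⟩ := rnd a
  obtain ⟨b1, b2, hb⟩ := rnd b
  obtain ⟨c1, c2, hc⟩ := rnd c
  obtain ⟨d1, d2, hd⟩ := rnd d
  obtain ⟨e1, e2, he⟩ := rnd e
  by_cases h : (a - 0 - a1) ^ 2 + (b - 0 - b1) ^ 2 + (c - 0 - c1) ^ 2 + (d - 0 - d1) ^ 2 +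
      (e - 0 - e1) ^ 2 ≤ 5 / 8
  · exact key 0 _ _ _ _ _ h
  · exact key (1 / 2) a2 b2 c2 d2 e2 (by linarith)

theorem euclid (a : ZG) {b : ZG} (hb : X b * Y b ≠ 0) :
    ∃ q : ZG, X (-(a - q * b)) * Y (-(a - q * b)) < X b * Y b := by
  have h1 : phi b ≠ 0 := fun h => hb (by simp [X, h])
  have h2 : psi b ≠ 0 := fun h => hb (by simp [Y, h])
  obtain ⟨q, hq⟩ := approx (phi a / phi b) (psi a / psi b)
  refine ⟨q, ?_⟩
  have e1 : X (-(a - q * b)) = normSq (phi a / phi b - phi q) * X b := by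
    rw [X, X, map_neg, normSq_neg, ← map_mul normSq]
    congr 1
    rw [map_sub, map_mul]
    field_simp
  have e2 : Y (-(a - q * b)) = normSq (psi a / psi b - psi q) * Y b := by
    rw [Y, Y, map_neg, normSq_neg, ← map_mul normSq]
    congr 1
    rw [map_sub, map_mul]
    field_simp
  have h0 : 0 < X b * Y b := lt_of_le_of_ne (mul_nonneg (normSq_nonneg _) (normSq_nonneg _)) hb.symm
  rw [e1, e2, mul_mul_mul_comm]
  exact mul_lt_of_lt_one_left h0 hq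

end Pool.Agent.Lib.MP_2add11_gt.C5
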