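import Pool.Agent.Lib.MP_2add11_gt.C5.B
import Pool.Agent.Lib.MP_2add11_gt.FG.Conv

/-!
`SK₁(ℤ[ℤ/5]) = 0`, the units of `ℤ[ℤ/5]`, and the generator of `Wh(ℤ/5)`.
-/

noncomputable section

namespace Pool.Agent.Lib.MP_2add11_gt.C5

open Complex FG

variable {W : Type} [AddCommGroup W] (s : Inv ZG W)

theorem NN : N * N = 5 * N := by
  rw [N_mul, eps_N]
  push_cast
  ring

theorem symN {x y : ℤ} {w : W} (h : s.Sym (1 + N * x) (N * y) w) : w = 0 := by
  have key : ∀ {y : ℤ}, y ≠ 0 → s.Sym (1 + N * x) (N * y) w → w = 0 := fun {y} hy h => by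
    refine h.int s NN hy ?_
    obtain ⟨c, d, h, -⟩ := h
    have := congrArg eps h
    simp only [map_sub, map_mul, map_add, map_one, eps_N, map_intCast, Int.cast_id] at this
    exact ⟨eps d, -eps c, by linear_combination this⟩
  by_cases hy : y = 0
  · refine key (y := 1 + 5 * x) (by omega) ((h.addR s N).cg s rfl ?_)
    rw [hy]
    push_cast
    linear_combination (x : ZG) * NN
  · exact key hy h

theorem sym0 (a b : ZG) (w : W) (h : s.Sym a b w) : w = 0 := by
  obtain ⟨k, hk⟩ := nm_nat b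
  induction k using Nat.strong_induction_on generalizing a b with
  | _ k ih =>
  by_cases h0 : X b * Y b = 0
  · obtain ⟨y, rfl⟩ := nm_zero h0
    obtain ⟨c, d, hd, -⟩ := id h
    have h1 := ((h.addR s ((1 - a) * d)).addL s 1).addR s (a - 1)
    refine symN s (x := y * eps (1 + (1 - a) * c)) (y := y * eps ((1 + (1 - a) * c) * a))
      (h1.cg s ?_ ?_)
    · push_cast
      linear_combination (1 - a) * hd + (y : ZG) * N_mul (1 + (1 - a) * c)
    · push_cast
      linear_combination a * (1 - a) * hd + (y : ZG) * N_mul ((1 + (1 - a) * c) * a)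
  · obtain ⟨q, hq⟩ := euclid a h0
    obtain ⟨j, hj⟩ := nm_nat (-(a - q * b))
    refine ih j (by rw [hj, hk] at hq; exact_mod_cast hq) b _ ?_ hj
    exact ((((h.addL s (-q)).addL s 1).addR s (-1)).addL s 1).cg s (by ring) (by ring)

theorem cls_det {n : Type} [Fintype n] [DecidableEq n] {A : Matrix n n ZG} (hA : IsUnit A) :
    s.c A = s.c (u1 A.det) :=
  s.sk0' exists_good (sym0 s.red) hA

theorem unit_S {r : ZG} (hr : IsUnit r) : X r * Y r = 1 ∧ ∃ A : ℕ, X r + Y r = (5 * A - 1) / 2 ∧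
    (A ≤ 1 → ∃ g : G5, r = .single g 1 ∨ r = -.single g 1) := by
  constructor
  · obtain ⟨v, hv⟩ := hr.exists_right_inv
    obtain ⟨k, hk⟩ := nm_nat r
    obtain ⟨j, hj⟩ := nm_nat v
    have : ((k * j : ℕ) : ℝ) = 1 := by
      rw [Nat.cast_mul, ← hk, ← hj, mul_mul_mul_comm, ← X_mul, ← Y_mul, hv]
      simp [X, Y]
    rw [hk, Nat.eq_one_of_mul_eq_one_right (Nat.cast_eq_one.1 this), Nat.cast_one]
  have he := Int.isUnit_iff.1 (hr.map eps)
  obtain ⟨a, b, c, d, e, rfl⟩ := exists_el r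
  rw [eps_el] at he
  have he2 : (a + b + c + d + e) ^ 2 = 1 := by rcases he with h | h <;> rw [h] <;> norm_num
  obtain ⟨A, hA⟩ := Int.eq_ofNat_of_zero_le
    (show 0 ≤ a ^ 2 + b ^ 2 + c ^ 2 + d ^ 2 + e ^ 2 by positivity)
  refine ⟨A, ?_, fun h1 => ?_⟩
  · have h1 : ((a : ℝ) + b + c + d + e) ^ 2 = 1 := by exact_mod_cast he2
    have h2 : (a : ℝ) ^ 2 + b ^ 2 + c ^ 2 + d ^ 2 + e ^ 2 = A := by exact_mod_cast hA
    rw [X, Y, phi_el, psi_el, nsq1, nsq2]
    linear_combination 5 / 2 * h2 - 1 / 2 * h1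
  · have q : ∀ a b c d e : ℤ, a ^ 2 + b ^ 2 + c ^ 2 + d ^ 2 + e ^ 2 ≤ 1 → a ≠ 0 →
        b = 0 ∧ c = 0 ∧ d = 0 ∧ e = 0 := fun a b c d e h ha => by
      have q1 : 0 < a ^ 2 := by positivity
      have q2 := sq_nonneg b
      have q3 := sq_nonneg c
      have q4 := sq_nonneg d
      have q5 := sq_nonneg e
      exact ⟨(pow_eq_zero_iff two_ne_zero).1 (by omega), (pow_eq_zero_iff two_ne_zero).1 (by omega),
        (pow_eq_zero_iff two_ne_zero).1 (by omega), (pow_eq_zero_iff two_ne_zero).1 (by omega)⟩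
    have h2 : a ^ 2 + b ^ 2 + c ^ 2 + d ^ 2 + e ^ 2 ≤ 1 := by rw [hA]; exact_mod_cast h1
    have : (a = 1 ∨ a = -1) ∧ b = 0 ∧ c = 0 ∧ d = 0 ∧ e = 0 ∨
        (b = 1 ∨ b = -1) ∧ a = 0 ∧ c = 0 ∧ d = 0 ∧ e = 0 ∨
        (c = 1 ∨ c = -1) ∧ a = 0 ∧ b = 0 ∧ d = 0 ∧ e = 0 ∨
        (d = 1 ∨ d = -1) ∧ a = 0 ∧ b = 0 ∧ c = 0 ∧ e = 0 ∨
        (e = 1 ∨ e = -1) ∧ a = 0 ∧ b = 0 ∧ c = 0 ∧ d = 0 := by
      by_cases ha : a = 0
      · by_cases hb : b = 0
        · by_cases hc : c = 0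
          · by_cases hd : d = 0
            · exact .inr (.inr (.inr (.inr ⟨by simpa [ha, hb, hc, hd] using he, ha, hb, hc, hd⟩)))
            · obtain ⟨g1, g2, g3, g4⟩ := q d a b c e (by linarith) hd
              exact .inr (.inr (.inr (.inl ⟨by simpa [g1, g2, g3, g4] using he, g1, g2, g3, g4⟩)))
          · obtain ⟨g1, g2, g3, g4⟩ := q c a b d e (by linarith) hc
            exact .inr (.inr (.inl ⟨by simpa [g1, g2, g3, g4] using he, g1, g2, g3, g4⟩))
        · obtain ⟨g1, g2, g3, g4⟩ := q b a c d e (by linarith) hb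
          exact .inr (.inl ⟨by simpa [g1, g2, g3, g4] using he, g1, g2, g3, g4⟩)
      · obtain ⟨g1, g2, g3, g4⟩ := q a b c d e h2 ha
        exact .inl ⟨by simpa [g1, g2, g3, g4] using he, g1, g2, g3, g4⟩
    rcases this with ⟨h, rfl, rfl, rfl, rfl⟩ | ⟨h, rfl, rfl, rfl, rfl⟩ | ⟨h, rfl, rfl, rfl, rfl⟩ |
      ⟨h, rfl, rfl, rfl, rfl⟩ | ⟨h, rfl, rfl, rfl, rfl⟩
    · exact ⟨gen ^ 0, h.imp (fun h => by rw [← T_pow]; simp [el, h])
        fun h => by rw [← T_pow]; simp [el, h]⟩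
    · exact ⟨gen ^ 1, h.imp (fun h => by rw [← T_pow]; simp [el, h])
        fun h => by rw [← T_pow]; simp [el, h]⟩
    · exact ⟨gen ^ 2, h.imp (fun h => by rw [← T_pow]; simp [el, h])
        fun h => by rw [← T_pow]; simp [el, h]⟩
    · exact ⟨gen ^ 3, h.imp (fun h => by rw [← T_pow]; simp [el, h])
        fun h => by rw [← T_pow]; simp [el, h]⟩
    · exact ⟨gen ^ 4, h.imp (fun h => by rw [← T_pow]; simp [el, h])
        fun h => by rw [← T_pow]; simp [el, h]⟩

def uu : ZG := el (-1) 0 0 (-1) 1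

def vv : ZG := el 0 1 0 (-1) (-1)

theorem uv : uu * vv = 1 := by
  simp only [uu, vv, el]
  push_cast
  linear_combination (1 + T - T ^ 3) * T_five

theorem XY_uv : X uu = 2 - 3 * sg ∧ Y uu = 5 + 3 * sg ∧ X vv = 5 + 3 * sg ∧ Y vv = 2 - 3 * sg := by
  simp only [X, Y, uu, vv, phi_el, psi_el, nsq1, nsq2]
  push_cast
  exact ⟨by ring, by ring, by ring, by ring⟩

theorem cls_uu : (whInv G5).c (u1 uu) = Wh.cls uM := by
  rw [← whInv_val, ← (whInv G5).sub (Equiv.ofUnique Unit (Fin 1)) uM.isUnit]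
  congr 1
  ext1 i j
  simp only [u1, uu, el, uM, Matrix.of_apply, Matrix.submatrix_apply]
  push_cast
  ring

theorem unit_mem {r : ZG} (hr : IsUnit r) :
    (whInv G5).c (u1 r) ∈ AddSubgroup.zmultiples (Wh.cls uM) := by
  obtain ⟨-, A, hA, -⟩ := unit_S hr
  have hu : IsUnit uu := IsUnit.of_mul_eq_one vv uv
  have hv : IsUnit vv := IsUnit.of_mul_eq_one uu (by rw [mul_comm, uv])
  have mu : (whInv G5).c (u1 uu) ∈ AddSubgroup.zmultiples (Wh.cls uM) := by
    rw [cls_uu]; exact AddSubgroup.mem_zmultiples _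
  have mm : ∀ {x y : ZG}, IsUnit x → IsUnit y →
      (whInv G5).c (u1 (x * y)) = (whInv G5).c (u1 x) + (whInv G5).c (u1 y) := fun hx hy => by
    rw [Inv.u1_mul, (whInv G5).mul (Inv.isUnit_u1 hx) (Inv.isUnit_u1 hy)]
  have mv : (whInv G5).c (u1 vv) ∈ AddSubgroup.zmultiples (Wh.cls uM) := by
    have h1 := mm hu hv
    have h2 := mm isUnit_one isUnit_one
    rw [one_mul, left_eq_add] at h2
    rw [uv, h2] at h1
    rw [eq_neg_of_add_eq_zero_right h1.symm]
    exact neg_mem mu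
  induction A using Nat.strong_induction_on generalizing r with
  | _ A ih =>
  obtain ⟨h1, A', hA', h2⟩ := unit_S hr
  obtain rfl : A' = A := Nat.cast_injective (R := ℝ) (by linarith)
  by_cases h3 : A' ≤ 1
  · obtain ⟨g, hg⟩ := h2 h3
    rw [u1, (whInv_triv g hg).2]
    exact zero_mem _
  · have h4 : (2 : ℝ) ≤ A' := by exact_mod_cast (by omega : 2 ≤ A')
    obtain ⟨x1, y1, x2, y2⟩ := XY_uv
    obtain ⟨-, B, hB, -⟩ := unit_S (hr.mul hu)
    obtain ⟨-, C, hC, -⟩ := unit_S (hr.mul hv)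
    have key : B < A' ∨ C < A' := by
      by_contra hn
      rw [not_or, not_lt, not_lt] at hn
      have b0 : (A' : ℝ) ≤ B := by exact_mod_cast hn.1
      have c0 : (A' : ℝ) ≤ C := by exact_mod_cast hn.2
      rw [X_mul, Y_mul, x1, y1] at hB
      rw [X_mul, Y_mul, x2, y2] at hC
      have e : (X r * (2 - 3 * sg) + Y r * (5 + 3 * sg) - (X r + Y r)) *
          (X r * (5 + 3 * sg) + Y r * (2 - 3 * sg) - (X r + Y r)) = 45 - 5 * (X r + Y r) ^ 2 := by
        linear_combination 45 * h1 - 9 * (X r - Y r) ^ 2 * sg_sq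
      have := mul_nonneg (show 0 ≤ X r * (2 - 3 * sg) + Y r * (5 + 3 * sg) - (X r + Y r) by linarith)
        (show 0 ≤ X r * (5 + 3 * sg) + Y r * (2 - 3 * sg) - (X r + Y r) by linarith)
      rw [e] at this
      nlinarith
    rcases key with h | h
    · have := ih B h (hr.mul hu) hB
      rw [mm hr hu] at this
      simpa using sub_mem this mu
    · have := ih C h (hr.mul hv) hC
      rw [mm hr hv] at this
      simpa using sub_mem this mv

theorem wh_gen (x : Wh G5) : x ∈ AddSubgroup.zmultiples (Wh.cls uM) := by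
  induction x using QuotientAddGroup.induction_on with
  | H x =>
  induction x using QuotientAddGroup.induction_on with
  | H x =>
  induction x using FreeAbelianGroup.induction_on with
  | zero => exact zero_mem _
  | of A =>
    change Wh.cls A.2 ∈ _
    rw [← whInv_val A.2, cls_det _ A.2.isUnit]
    exact unit_mem ((Matrix.isUnit_iff_isUnit_det _).1 A.2.isUnit)
  | neg A h => exact neg_mem h
  | add x y hx hy => exact add_mem hx hy

end Pool.Agent.Lib.MP_2add11_gt.C5
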